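import Pool.Agent.K6.H25.LDU.Bet

/-!
MP_5b7a2c_ag: log uniformization of valuations on schemes of finite type over Dedekind domains
(mixed characteristic).

Suppose that the valuations of rank one with algebraic residue fields are log uniformizable on all
affine varieties of dimension at most `d` over all fields, and, if they are centred on the closed
fibre, on all affine schemes of finite type and of dimension at most `d` over all discrete valuation
rings of characteristic zero (they are excellent). For `d = 3` this is contained in the theorem of
Cossart and Piltant. Let `O` be a Dedekind domain of characteristic zero: the integers, a ring of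
integers, a discrete valuation ring of mixed characteristic, a field of characteristic zero. Let
`X = Spec A` be an affine integral scheme of finite type over `O`, or a localization of such a
scheme, of any dimension (the fibre over the generic point of `O` may be empty), and let `V` be a
valuation ring of the function field over `A`. Then `V` is log uniformizable on `X` if all components
of rank one of `V` have relative dimension at most `d`, and this holds if
`rank V + dim κ(V) > dim K - d`, where `dim κ` is the dimension of a field `κ` over `O`: the
transcendence degree over the image of `O`, plus one if `O` is embedded in `κ`. (For `O = ℤ` this is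
the Kronecker dimension. If `O` is not a field, then the schemes of finite type over `O` with the
function field `K` have dimension at most `dim K`, and exactly `dim K` if `O` is a ring of integers.)

So for `d = 3` all valuations of schemes of dimension four of finite type over `O` are log
uniformizable, except possibly those of rank one whose residue field is algebraic over the residue
field of `O` at a nonzero prime (if `O` is not a field).

The proof: for a component of rank one, with the centres `0` and `P ≠ 0` on `Spec O`, let `t` be
lifts of a transcendence basis of the residue field over `O / P`. The local ring of `O_P[t]` at the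
centre is a discrete valuation ring `R`, and the models which contain `t` have the same local rings
at the centres as models over `R`; the relative dimension is smaller by the number of the `t`, and
over `R` the residue field is algebraic. The components are composed with the theorem on composites
of the starting library (Pool/Agent/R187/CT and Pool/Agent/TH188/QS); the components over one point
of `Spec O` are those of helper34 (Pool/Agent/K6/H34/LU).

helper25; built on the library of the starting files and on that of helper34.
-/

set_option autoImplicit false

universe u

namespace Pool.Agent.Results.MP_5b7a2c_ag.DedekindBases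

open IsLocalRing Pool.Agent.W418.LU2 Pool.Agent.TH188.QS Pool.Agent.K6.H25.LDU

/-- The local ring of `Spec B` at the centre of the valuation ring `V`: the fractions of elements
of `B` whose denominators are units of `V`. -/
def centreRing {F : Type u} [Field F] (V : ValuationSubring F) (B : Subring F) : Subring F where
  carrier := {x | ∃ a ∈ B, ∃ b ∈ B, b ≠ 0 ∧ b⁻¹ ∈ V ∧ x = a * b⁻¹}
  mul_mem' := (lo V.toSubring B).mul_mem'
  one_mem' := (lo V.toSubring B).one_mem'
  add_mem' := (lo V.toSubring B).add_mem'
  zero_mem' := (lo V.toSubring B).zero_mem'
  neg_mem' := (lo V.toSubring B).neg_mem'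

/-- The chart `A[I / f]` of the blowing-up of `Spec A` in the ideal `I`. -/
def blowUpChart {F : Type u} [Field F] (A : Subring F) (I : Ideal A) (f : A) : Subring F :=
  Subring.closure ((A : Set F) ∪ {z | ∃ a ∈ I, z = (a : F) / (f : F)})

/-- `P` is a regular local ring and the zero set of `J` is a divisor with strict normal
crossings: the radical of `J` is generated by the product of some of the elements of a regular
system of parameters. -/
def RegularPair (P : Type u) [CommRing P] (J : Ideal P) : Prop :=
  ∃ (_ : IsRegularLocalRing P) (n : ℕ) (x : Fin n → P) (s : Finset (Fin n)),
    Ideal.span (Set.range x) = IsLocalRing.maximalIdeal P ∧ ringKrullDim P = n ∧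
      J.radical = Ideal.span {∏ i ∈ s, x i}

/-- The blowing-up of `X = Spec A` in `V(I)` is a log desingularization of `(X, V(D))` along the
valuation ring `V`. Here `f ∈ I` generates `I V`, the centre of the lift of the valuation lies in
the chart `Spec A[I / f]`, and the ideal `D I` defines the preimage of `V(D) ∪ V(I)`. -/
def IsLogDesingularization {F : Type u} [Field F] (V : ValuationSubring F) (A : Subring F)
    (D I : Ideal A) : Prop :=
  ∃ f ∈ I, f ≠ 0 ∧ (∀ a ∈ I, (a : F) / (f : F) ∈ V) ∧
    RegularPair (centreRing V (blowUpChart A I f))
      (Ideal.span {z | ∃ a ∈ D * I, (z : F) = (a : F)})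

/-- The valuation ring `V` is log uniformizable on `Spec A`. (The blowings-up in the ideals
`I₀ * I₁` are cofinal: the blowing-up in `I₀ * I₁` factors through the blowing-up in `I₀`.) -/
def IsLogUniformizable {F : Type u} [Field F] (V : ValuationSubring F) (A : Subring F) : Prop :=
  ∀ D I₀ : Ideal A, D ≠ ⊥ → I₀ ≠ ⊥ →
    ∃ I₁ : Ideal A, I₁ ≠ ⊥ ∧ IsLogDesingularization V A D (I₀ * I₁)

/-- Every element of the field `K` is a fraction of elements of `A`. -/
def HasFractionField {K : Type u} [Field K] (A : Subring K) : Prop :=
  ∀ z : K, ∃ a ∈ A, ∃ b ∈ A, b ≠ 0 ∧ z = a * b⁻¹

/-- There is no valuation ring strictly between `U` and `U' > U`. -/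
def IsAdjacent {K : Type u} [Field K] (U U' : ValuationSubring K) : Prop :=
  U < U' ∧ ∀ U'' : ValuationSubring K, U ≤ U'' → U'' ≤ U' → U'' = U ∨ U'' = U'

/-- Log uniformization in dimension at most `d` for the valuations of rank one with algebraic
residue fields, over fields: let `F` be a field of transcendence degree at most `d` over a field
`k`, let `V` be a valuation ring of `F` of rank one (there is no valuation ring strictly between `V`
and `F ≠ V`) such that the residues of all `z ∈ V` are algebraic over `k` (some nonzero polynomial
`P` over `k` takes a value in the maximal ideal of `V` at `z`); then `V` is log uniformizable on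
`Spec A` for all finitely generated `k`-algebras `A ⊆ V` with the fraction field `F`. -/
def LogUniformizationOverFields (d : ℕ) : Prop :=
  ∀ (k F : Type u) [Field k] [Field F] [Algebra k F] (V : ValuationSubring F)
    (A : Subalgebra k F), A.FG → HasFractionField A.toSubring → A.toSubring ≤ V.toSubring →
    Algebra.trdeg k F ≤ d → IsAdjacent V ⊤ →
    (∀ z ∈ V, ∃ P : Polynomial k, P ≠ 0 ∧ V.valuation (Polynomial.aeval z P) < 1) →
    IsLogUniformizable V A.toSubring

/-- Log uniformization in dimension at most `d` for the valuations of rank one with algebraic
residue fields, over discrete valuation rings of characteristic zero: let `R` be a discrete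
valuation ring of characteristic zero, `F ⊇ R` a field of transcendence degree at most `d - 1` over
`R`, let `V` be a valuation ring of `F` of rank one such that the maximal ideal of `R` lies in the
maximal ideal of `V` and the residues of all `z ∈ V` are algebraic over the residue field of `R`
(some polynomial `P` over `R`, one of whose coefficients is a unit, takes a value in the maximal
ideal of `V` at `z`); then `V` is log uniformizable on `Spec A` for all finitely generated
`R`-algebras `A ⊆ V` with the fraction field `F`. -/
def LogUniformizationOverDVR (d : ℕ) : Prop :=
  ∀ (R F : Type u) [CommRing R] [IsDomain R] [IsDiscreteValuationRing R] [CharZero R] [Field F]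
    [Algebra R F] [FaithfulSMul R F] (V : ValuationSubring F) (A : Subalgebra R F), A.FG →
    HasFractionField A.toSubring → A.toSubring ≤ V.toSubring → Algebra.trdeg R F + 1 ≤ d →
    IsAdjacent V ⊤ → (∀ c ∈ maximalIdeal R, V.valuation (algebraMap R F c) < 1) →
    (∀ z ∈ V, ∃ P : Polynomial R, (∃ i, IsUnit (P.coeff i)) ∧
      V.valuation (Polynomial.aeval z P) < 1) →
    IsLogUniformizable V A.toSubring

/-- The dimension of a field `κ` over a ring `O`, for the map `φ` of `O` to `κ`: the transcendence
degree over the image of `O`, plus one if `O` is embedded in `κ`. (For `O = ℤ` this is the Kronecker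
dimension of `κ`: the transcendence degree over the prime field, plus one in characteristic
zero.) -/
noncomputable def relativeDim {O κ : Type u} [CommRing O] [Field κ] (φ : O →+* κ) : Cardinal.{u} :=
  Algebra.trdeg φ.range κ + (open Classical in if Function.Injective φ then 1 else 0)

/-- The map of `O` to the residue field of a valuation ring `U` which contains the image of `O`. -/
noncomputable def residueMap (O : Type u) {K : Type u} [CommRing O] [Field K] [Algebra O K]
    (U : ValuationSubring K) (h : ∀ c : O, algebraMap O K c ∈ U) : O →+* ResidueField U :=
  (residue U).comp ((algebraMap O K).codRestrict U.toSubring h)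

/-- `A` is a localization of a finitely generated `O`-algebra: all elements of `A` are fractions of
elements of the `O`-algebra generated by a finite set `T`, with denominators which are units of
`A`. -/
def IsEssentiallyFinite (O : Type u) {K : Type u} [CommRing O] [Field K] [Algebra O K]
    (A : Subring K) : Prop :=
  ∃ T : Set K, T.Finite ∧ (Algebra.adjoin O T).toSubring ≤ A ∧
    ∀ b ∈ A, ∃ a ∈ Algebra.adjoin O T, ∃ s ∈ Algebra.adjoin O T, s ≠ 0 ∧ s⁻¹ ∈ A ∧ b = a * s⁻¹

lemma lud {d : ℕ} (hd : LogUniformizationOverFields.{u} d) : Pool.Agent.K6.H34.LU.LUD.{u} d := by
  intro k F _ _ _ V A hA hfr hAV htr hV hV1 halg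
  refine hd k F V A hA hfr hAV htr ⟨lt_top_iff_ne_top.2 hV, fun U h1 _ => hV1 U h1⟩ halg

lemma lum {d : ℕ} (hd : LogUniformizationOverDVR.{u} d) : LUM.{u} d := by
  intro R F _ _ _ _ _ _ _ V A hA hfr hAV htr hV hV1 hmax halg
  refine hd R F V A hA hfr hAV htr ⟨lt_top_iff_ne_top.2 hV, fun U h1 _ => hV1 U h1⟩ hmax halg

lemma rg_eq {O K : Type u} [CommRing O] [Field K] [Algebra O K] (T : Set K) :
    Pool.Agent.R187.CT.rg (algebraMap O K) T = (Algebra.adjoin O T).toSubring := by
  rw [Algebra.adjoin_eq_ring_closure]
  rfl

/-- Let `d` be a number such that the valuations of rank one with algebraic residue fields are log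
uniformizable in dimension at most `d` over fields and over discrete valuation rings of
characteristic zero (`d = 3`, by Cossart and Piltant). Let `O` be a Dedekind domain of characteristic
zero, `A` a finitely generated `O`-algebra, or a localization of one, which is a domain with the
fraction field `K`, and `V` a valuation ring of `K` which contains `A`. Then `V` is log uniformizable
on `Spec A` if, first, for all valuation rings `U` and `U'` of `K` with `V ≤ U < U'` and no valuation
ring strictly between `U` and `U'` the dimension over `O` of the residue field of `U'` is at most
that of the residue field of `U` plus `d`, or if, second, the dimension of `K` over `O` is less than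
the sum of the rank of `V`, of the dimension over `O` of the residue field of `V`, and of `d`. -/
theorem result (d : ℕ) (hd : LogUniformizationOverFields.{u} d) (hm : LogUniformizationOverDVR.{u} d)
    {O K : Type u} [CommRing O] [IsDedekindDomain O] [CharZero O] [Field K] [Algebra O K]
    (A : Subring K) (hA : IsEssentiallyFinite O A) (hfr : HasFractionField A)
    (V : ValuationSubring K) (hAV : A ≤ V.toSubring) (hO : ∀ c : O, algebraMap O K c ∈ V)
    (hdim : (∀ (U U' : ValuationSubring K) (hU : V ≤ U) (hU' : V ≤ U'), IsAdjacent U U' →
        relativeDim (residueMap O U' fun c => hU' (hO c)) ≤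
          relativeDim (residueMap O U fun c => hU (hO c)) + d) ∨
      (∃ r : ℕ, (r : WithBot ℕ∞) ≤ ringKrullDim V ∧
        relativeDim (algebraMap O K) < r + relativeDim (residueMap O V hO) + d)) :
    IsLogUniformizable V A := by
  obtain ⟨T, hT, hTA, hloc⟩ := hA
  rw [← rg_eq] at hTA
  have hloc' : ∀ b ∈ A, ∃ a ∈ Pool.Agent.R187.CT.rg (algebraMap O K) T,
      ∃ s ∈ Pool.Agent.R187.CT.rg (algebraMap O K) T, s ≠ 0 ∧ s⁻¹ ∈ A ∧ b = a * s⁻¹ := by
    rw [rg_eq]
    exact hloc
  have hfr' : ∀ z : K, Fr (Pool.Agent.R187.CT.rg (algebraMap O K) T) z := by
    intro z
    obtain ⟨b, hb, c, hc, hc0, rfl⟩ := hfr z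
    obtain ⟨a, ha, s, hs, hs0, -, rfl⟩ := hloc' b hb
    obtain ⟨a', ha', s', hs', hs'0, -, rfl⟩ := hloc' c hc
    have ha'0 : a' ≠ 0 := left_ne_zero_of_mul hc0
    refine ⟨a * s', Subring.mul_mem _ ha hs', s * a', Subring.mul_mem _ hs ha',
      mul_ne_zero hs0 ha'0, ?_⟩
    field_simp
  have hK : kd (algebraMap O K) < Cardinal.aleph0 := kd_fin _ T hT hfr'
  have hgood : Pool.Agent.R187.CT.Good (algebraMap O K) V := by
    rcases hdim with h | ⟨r, hr, h⟩
    · exact good_componentsO (lud hd) (lum hm) (algebraMap O K) hK V hO fun U U' hU hU' hUU =>
        h U U' hU hU' hUU
    · exact good_strictO (lud hd) (lum hm) (algebraMap O K) hK V hO r hr h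
  exact hgood.logUnif hj_dedekind hT hAV hTA hloc' hfr

end Pool.Agent.Results.MP_5b7a2c_ag.DedekindBases
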