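import Pool.Agent.Results.MP_5b7a2c_ag.CompositesAndTowers
import Pool.Agent.K6.H44.GV.Desing

/-!
MP_5b7a2c_ag: generic valuations are log uniformizable, in all dimensions and characteristics.

Let `R` be a base ring (each quotient domain of `R` is a field, or is of finite type over a regular
domain which is `F`-finite, or formally smooth over a perfect field, or contained in it, in
characteristic zero), and let `K` be a field which is finitely generated over `R`. The
Zariski–Riemann space of `K` over `R`, the set of all valuation rings of `K` over `R`, is a compact
Hausdorff space with the patch topology.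

(1) For every integral scheme `X = Spec B` essentially of finite type over `R` with function field
`K`, every closed subset `V(D)` and every blowing-up of `X`, the valuations for which there is a log
desingularization of `(X, V(D))` which factors through the blowing-up contain a dense open subset of
the Zariski–Riemann space.

(2) If `K` is countable, then there is a dense `G_δ` set of valuations which are log uniformizable
on all such `X`. If moreover `K` has dimension at least two over `R`, these valuations have the value
group `ℚ` and algebraically closed residue fields (the algebraic closure of `R`, if `R` is a field),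
and the completions of `K` with respect to them are algebraically closed.

So the generic valuations are not Abhyankar valuations, not discrete, and all their residue and
value group extensions are infinite. For `R = ℤ` the theorem is about all valuation rings of the
finitely generated fields.

The proof: an open subset of the Zariski–Riemann space contains the valuations whose centre on some
affine model `Spec C` is a given closed point. There is a valuation with this centre which is
composed of discrete valuations of rank one and whose residue field is algebraic over that of the
centre. It is log uniformizable (starting library), and the obtained regular model, on which given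
functions are monomials, is also a log desingularization along all valuations with the same centre
on it. By Baire's theorem this gives a dense `G_δ` set. For the properties of the generic valuations
we consider curves through the closed point of the regular model: for example, for a monic
polynomial `g` with homogenization `G` there is a curve on which `G(y - x, x ^ 2)` vanishes but no
coordinate, and `(y - x) / x ^ 2` is a root of `g`, up to elements of arbitrarily large value, for
the composites of valuations centred at this curve. The dimension of models in mixed
characteristic: Zariski's main theorem.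

helper44; built on the library of the starting files (helpers 188, 418, 187 and others).
-/

set_option autoImplicit false

universe u

namespace Pool.Agent.Results.MP_5b7a2c_ag.GenericValuations

open IsLocalRing Polynomial
open Pool.Agent.Results.MP_5b7a2c_ag.CompositesAndTowers

variable {R K : Type u} [CommRing R] [Field K]

/-- The Zariski–Riemann space of the field `K` over `R`: the set of the valuation rings of `K` which
contain the image of `R`. -/
def ZariskiRiemannSpace (ρ : R →+* K) : Type u := {V : ValuationSubring K // ∀ a, ρ a ∈ V}

/-- The patch topology: it is generated by the sets `{V | x ∈ V}` and `{V | x ∉ V}`, `x ∈ K`. -/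
instance (ρ : R →+* K) : TopologicalSpace (ZariskiRiemannSpace ρ) :=
  TopologicalSpace.generateFrom {U | ∃ x : K, U = {V | x ∈ V.1} ∨ U = {V | x ∉ V.1}}

/-- The field `K` has dimension at least two over `R`. That is, all maximal ideals of the
`R`-algebras of finite type in `K` with fraction field `K` have height at least two. This holds in
the following two cases: the image of `R` in `K` is a field and there are two elements of `K` which
are algebraically independent over it; or `R` is a Jacobson ring (for example `ℤ`), its image in `K`
is not a field, and there is an element of `K` which is transcendental over the image of `R`. -/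
def DimensionAtLeastTwo (ρ : R →+* K) : Prop :=
  (∀ T : Set K, T.Finite → HasFractionField (adjoined ρ T) →
    ∀ P : Ideal (adjoined ρ T), P.IsMaximal → 2 ≤ P.height) ∨
  (IsField ρ.range ∧ ∃ x : Fin 2 → K, ∀ F : MvPolynomial (Fin 2) R,
    MvPolynomial.eval₂ ρ x F = 0 → MvPolynomial.map ρ F = 0) ∨
  (IsJacobsonRing R ∧ ¬ IsField ρ.range ∧ ∃ x : K, ∀ f : R[X], f.eval₂ ρ x = 0 → f.map ρ = 0)

/-- Let `R` be a base ring and let `K` be a field which is finitely generated over `R`.

1. For every subring `B` of `K` essentially of finite type over `R` with fraction field `K`, and
all nonzero ideals `D` and `I₀` of `B`, there is a dense open subset `U` of the Zariski–Riemann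
space such that for all `V` in `U` with `B ⊆ V` there is a log desingularization of
`(Spec B, V(D))` along `V` which is the blowing-up in an ideal `I₀ * I₁`.

2. If `K` is countable, there is a dense `G_δ` subset of the Zariski–Riemann space whose elements
`V` are log uniformizable on all `Spec B` as above with `B ⊆ V`. If moreover `K` has dimension at
least two over `R`, then the elements `V` of this set have the following properties: the value
group of `V` is isomorphic to the ordered group `ℚ`; the residue field of `V` is algebraically
closed; the values at elements of `K` of every monic polynomial of positive degree over `K` get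
arbitrarily close to `0` (so the completion of `K` is algebraically closed); and the residue field
of `V` is integral over `R` if `R` is a Jacobson ring (so it is an algebraic closure of `R` if `R`
is a field). -/
theorem result (hR : IsBaseRing R) (ρ : R →+* K) (hK : IsFinitelyGenerated ρ) :
    (∀ B : Subring K, IsEssentiallyOfFiniteType ρ B → HasFractionField B →
      ∀ D I₀ : Ideal B, D ≠ ⊥ → I₀ ≠ ⊥ →
        ∃ U : Set (ZariskiRiemannSpace ρ), IsOpen U ∧ Dense U ∧
          ∀ V ∈ U, B ≤ V.1.toSubring →
            ∃ I₁ : Ideal B, I₁ ≠ ⊥ ∧ IsLogDesingularization V.1 B D (I₀ * I₁)) ∧
    (Countable K → ∃ G : Set (ZariskiRiemannSpace ρ), IsGδ G ∧ Dense G ∧ ∀ V ∈ G,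
      (∀ B : Subring K, IsEssentiallyOfFiniteType ρ B → B ≤ V.1.toSubring →
        HasFractionField B → IsLogUniformizable V.1 B) ∧
      (DimensionAtLeastTwo ρ →
        (∃ ν : Kˣ →* Multiplicative ℚ, Function.Surjective ν ∧
          ∀ x : Kˣ, (x : K) ∈ V.1 ↔ 1 ≤ ν x) ∧
        IsAlgClosed (ResidueField V.1) ∧
        (∀ f : K[X], f.Monic → 0 < f.natDegree → ∀ c : K, c ≠ 0 →
          ∃ b : K, V.1.valuation (f.eval b) < V.1.valuation c) ∧
        (IsJacobsonRing R →
          ((residue V.1).comp (ρ.codRestrict V.1.toSubring V.2)).IsIntegral))) := by
  classical
  have hJ := hR.hj
  refine ⟨?_, ?_⟩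
  · rintro B ⟨T, hT, hTB, hBT⟩ hBK D I₀ hD hI₀
    exact Pool.Agent.K6.H44.GV.dense_desing (ρ := ρ) hJ hT hTB hBT hBK D I₀ hD hI₀
  · intro hcount
    have hdim : DimensionAtLeastTwo ρ → Pool.Agent.K6.H44.GV.Dim2 ρ := by
      rintro (h | ⟨hf, x, hx⟩ | ⟨hj, hnf, x, hx⟩)
      · exact h
      · exact Pool.Agent.K6.H44.GV.dim2_field ρ hf x hx
      · exact Pool.Agent.K6.H44.GV.dim2_jacobson ρ hnf
          (fun T hT => Pool.Agent.R187.CT.noe_rg hJ ρ hT) x hx
    have h1 := Pool.Agent.K6.H44.GV.generic_lu (ρ := ρ) hJ
    have h2 : ∀ᶠ V in residual (Pool.Agent.K6.H44.GV.ZR ρ), DimensionAtLeastTwo ρ →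
        Pool.Agent.K6.H44.GV.Cyc V.1 ∧ Pool.Agent.K6.H44.GV.Apx V.1 := by
      by_cases h : DimensionAtLeastTwo ρ
      · filter_upwards [Pool.Agent.K6.H44.GV.generic_props hJ hK (hdim h)] with V hV _
        exact hV
      · exact Filter.Eventually.of_forall fun _ h' => absurd h' h
    have h3 : ∀ᶠ V in residual (Pool.Agent.K6.H44.GV.ZR ρ), IsJacobsonRing R →
        ((residue V.1).comp (ρ.codRestrict V.1.toSubring V.2)).IsIntegral := by
      by_cases h : IsJacobsonRing R
      · filter_upwards [Pool.Agent.K6.H44.GV.generic_integral ρ] with V hV _
        exact hV
      · exact Filter.Eventually.of_forall fun _ h' => absurd h' h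
    have h4 := (h1.and h2).and h3
    obtain ⟨G, hG, hGδ, hGd⟩ := mem_residual.1 h4
    refine ⟨G, hGδ, hGd, fun V hV => ?_⟩
    obtain ⟨⟨h5, h6⟩, h7⟩ := hG hV
    refine ⟨?_, fun hd => ?_⟩
    · rintro B ⟨T, hT, hTB, hBT⟩ hBV hBK
      have hgood : Pool.Agent.R187.CT.Good ρ V.1 := by
        obtain ⟨S, hS, hSK⟩ := hK
        refine ⟨S, hS, fun T' hT' hTV hST => ?_⟩
        refine h5 T' hT' (fun z => ?_) hTV
        exact Pool.Agent.R187.CT.fr_closure ρ
          (fun a ha => Subring.subset_closure (Or.inl ha)) hST (hSK z)
      exact hgood.logUnif hJ hT hBV hTB hBT hBK
    · obtain ⟨h8, h9⟩ := h6 hd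
      refine ⟨Pool.Agent.K6.H44.GV.exists_rat h8 h9, Pool.Agent.K6.H44.GV.residue_algClosed h9,
        fun f hf hf1 c hc => ?_, h7⟩
      obtain ⟨b, hb⟩ := h9 f hf hf1 c hc
      refine ⟨b, ?_⟩
      rw [Pool.Agent.K6.H44.GV.inM_iff, map_div₀] at hb
      exact (div_lt_one₀ (zero_lt_iff.2 ((_root_.map_ne_zero _).2 hc))).1 hb

end Pool.Agent.Results.MP_5b7a2c_ag.GenericValuations
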