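import Pool.Agent.Results.MP_5b7a2c_ag.CompositesAndTowers
import Pool.Agent.K6.H25.QE.Chain

/-!
MP_5b7a2c_ag: log uniformization of valuations at points of any dimension of the schemes of finite
type over an arbitrary base ring, by reduction to small local dimension.

Let `R` be a base ring: each quotient domain of `R` is a field, or is of finite type over a regular
domain which is `F`-finite, or formally smooth over a perfect field, or contained in it, in
characteristic zero (for example the integers, a complete local ring with `F`-finite residue field
in equal or mixed characteristic, or a domain of finite type over such a ring; `Spec R` itself may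
be the scheme under consideration). Suppose that the valuations of rank one with algebraic residue
fields are log uniformizable on the integral affine schemes of finite type over `R` if their centre
`x` satisfies `dim 𝒪_{X,x} ≤ d`; if `R` is quasi-excellent, then for `d = 3` this is the theorem of
Cossart and Piltant, applied to `Spec 𝒪_{X,x}`.

Let `X = Spec A` be an integral affine scheme of finite type over `R`, of any dimension, and `V` a
valuation ring of finite rank `r` of the function field `K`, with centre on `X`. Let
`V = U r < ... < U 1 < U 0 = K` be the valuation rings over `V`, let `x i` be the centre of `U i` and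
`t i` the transcendence degree of the residue field of `U i` over that of `x i`, and let `h i` be the
dimension of the local ring at `x (i + 1)` of the closure of `x i` (the height of the prime ideal of
`x (i + 1)` modulo that of `x i`). Theorem: if `h i + t i ≤ t (i + 1) + d` for all `i < r`, then `V` is
log uniformizable on `X`.

For example, a valuation of rank one with centre `x` is log uniformizable on `X` if
`dim 𝒪_{X,x} ≤ trdeg (κ(V) / κ(x)) + d`. So by the theorem of Cossart and Piltant the valuations of
rank one are log uniformizable at points of dimension four if `κ(V)` is not algebraic over `κ(x)`.

The proof: for a component of rank one we add lifts of a transcendence basis of the residue field.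
By the dimension inequality of Cohen, which is proved here (Pool/Agent/K6/H25/QE: for the adjunction
of one element, from the dimension of the fibres of the affine line), the local rings at the centres
of all further models of finite type have dimension at most `d`, and over them the residue field of
the valuation is algebraic. The components are composed with the theorem on composites of the starting
library (Pool/Agent/R187/CT, Pool/Agent/TH188/QS), with the lemmas of helper34 on images of
valuation rings and on restriction to subfields (Pool/Agent/K6/H34/LU).

helper25; built on the library of the starting files and on that of helper34.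
-/

set_option autoImplicit false

universe u

namespace Pool.Agent.Results.MP_5b7a2c_ag.LocalDimension

open IsLocalRing Pool.Agent.TH188.QS Pool.Agent.K6.H25.QE
open Pool.Agent.Results.MP_5b7a2c_ag.CompositesAndTowers (IsLogUniformizable HasFractionField
  IsBaseRing adjoined IsBaseRing.hj)

/-- There is no valuation ring strictly between `U` and `U' > U`. -/
def IsAdjacent {K : Type u} [Field K] (U U' : ValuationSubring K) : Prop :=
  U < U' ∧ ∀ U'' : ValuationSubring K, U ≤ U'' → U'' ≤ U' → U'' = U ∨ U'' = U'

/-- The residue map of a ring `A ⊆ V`. -/
noncomputable def residueMap {K : Type u} [Field K] (V : ValuationSubring K) (A : Subring K)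
    (h : A ≤ V.toSubring) : A →+* ResidueField V :=
  (residue V).comp (Subring.inclusion (T := V.toSubring) h)

/-- The centre of `V` on `Spec A`: the prime ideal of the elements of `A` in the maximal ideal of
`V`. -/
noncomputable def centre {K : Type u} [Field K] (V : ValuationSubring K) (A : Subring K)
    (h : A ≤ V.toSubring) : Ideal A :=
  RingHom.ker (residueMap V A h)

/-- The transcendence degree of the residue field of `V` over the residue field of the centre of
`V` on `Spec A` (over the image of `A`). -/
noncomputable def residueTrdeg {K : Type u} [Field K] (V : ValuationSubring K) (A : Subring K)
    (h : A ≤ V.toSubring) : Cardinal.{u} :=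
  Algebra.trdeg (residueMap V A h).range (ResidueField V)

/-- The height of the centre of `U` modulo the centre of `U'`, for `U ≤ U'`: the dimension of the
local ring, at the centre of `U`, of the closure in `Spec A` of the centre of `U'`. -/
noncomputable def relativeHeight {K : Type u} [Field K] (U U' : ValuationSubring K) (A : Subring K)
    (h : A ≤ U.toSubring) (h' : A ≤ U'.toSubring) : ℕ∞ :=
  ((centre U A h).map (Ideal.Quotient.mk (centre U' A h'))).height

/-- Log uniformization over `R`, in local dimension at most `d`, for the valuations of rank one with
algebraic residue fields: let `F` be the fraction field of a finitely generated `R`-algebra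
`A ⊆ F` (the images of `R` and of a finite set `T` generate `A`), and `V` a valuation ring of `F` of
rank one with `A ⊆ V`, whose centre on `Spec A` has height at most `d`, and such that the residues
of all `z ∈ V` are algebraic over the residue field of the centre (some polynomial `P` over `A`,
one of whose coefficients is not in the centre, takes a value in the maximal ideal of `V` at `z`);
then `V` is log uniformizable on `Spec A`. -/
def LogUniformizationInLocalDimension (R : Type u) [CommRing R] (d : ℕ) : Prop :=
  ∀ (F : Type u) [Field F] (ρ : R →+* F) (T : Set F) (V : ValuationSubring F), T.Finite →
    HasFractionField (adjoined ρ T) → ∀ (hV : adjoined ρ T ≤ V.toSubring),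
    (centre V (adjoined ρ T) hV).height ≤ d → IsAdjacent V ⊤ →
    (∀ z ∈ V, ∃ P : Polynomial (adjoined ρ T),
      (∃ i, P.coeff i ∉ centre V (adjoined ρ T) hV) ∧
        V.valuation (Polynomial.eval₂ (adjoined ρ T).subtype z P) < 1) →
    IsLogUniformizable V (adjoined ρ T)

/-- Let `R` be a base ring and `d` a number such that the valuations of rank one with algebraic
residue fields are log uniformizable on the integral affine schemes of finite type over `R` at
centres of height at most `d` (`d = 3`, for quasi-excellent `R`, by Cossart and Piltant). Let `A` be
a finitely generated `R`-algebra in a field `K` (generated by the images of `R` and of the finite set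
`T`) with the fraction field `K`, and let `V = U r < ... < U 1 < U 0 = K` be a chain of adjacent
valuation rings over `A`. Suppose that for all `i < r` the height of the centre of `U (i + 1)` modulo
that of `U i`, plus the transcendence degree of the residue field of `U i` over that of its centre,
is at most the transcendence degree of the residue field of `U (i + 1)` over that of its centre, plus
`d`. Then `V` is log uniformizable on `Spec A`. -/
theorem result {R : Type u} [CommRing R] (hR : IsBaseRing R) (d : ℕ)
    (hd : LogUniformizationInLocalDimension R d) {K : Type u} [Field K] (ρ : R →+* K)
    (T : Set K) (hT : T.Finite) (hfr : HasFractionField (adjoined ρ T))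
    (V : ValuationSubring K) (hV : adjoined ρ T ≤ V.toSubring) (r : ℕ)
    (U : ℕ → ValuationSubring K) (h0 : U 0 = ⊤) (hr : U r = V)
    (hadj : ∀ i < r, IsAdjacent (U (i + 1)) (U i))
    (hU : ∀ i, adjoined ρ T ≤ (U i).toSubring) (h t : ℕ → ℕ)
    (hh : ∀ i < r, relativeHeight (U (i + 1)) (U i) (adjoined ρ T) (hU (i + 1)) (hU i) = h i)
    (ht : ∀ i ≤ r, residueTrdeg (U i) (adjoined ρ T) (hU i) = t i)
    (hdim : ∀ i < r, h i + t i ≤ t (i + 1) + d) :
    IsLogUniformizable V (adjoined ρ T) := by
  have hLU : LUQ R d := by
    intro F _ ρ T V hT hfr hV hht hV1 hrk halg
    exact hd F ρ T V hT hfr hV hht ⟨lt_top_iff_ne_top.2 hV1, fun U h1 _ => hrk U h1⟩ halg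
  have hgood := good_chain' hR.hj ρ hT hLU r U h0 hU (fun i hi => (hadj i hi).1.le)
    (fun i hi => (hadj i hi).2) h t hh ht hdim r le_rfl
  rw [hr] at hgood
  refine hgood.logUnif hR.hj hT hV le_rfl (fun b hb => ?_) hfr
  exact ⟨b, hb, 1, Subring.one_mem _, one_ne_zero, by rw [inv_one]; exact Subring.one_mem _, by
    rw [inv_one, mul_one]⟩

end Pool.Agent.Results.MP_5b7a2c_ag.LocalDimension
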