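import Pool.Agent.K6.H34.LU.E

/-!
MP_5b7a2c_ag: log uniformization of valuations of large rank or large residual dimension.

Suppose that the valuations of rank one with algebraic residue fields are log uniformizable on all
affine varieties of dimension at most `d` over all fields. For `d = 3` this is the theorem of
Cossart and Piltant. Let `X = Spec A` be an affine variety over a field `k`, of any dimension, and
`V` a valuation ring of its function field `K` over `A`. Suppose that all components of rank one of
`V` have relative dimension at most `d`: for all valuation rings `V ≤ U < U' ≤ K` with nothing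
between `U` and `U'` the transcendence degree over `k` of the residue field of `U'` exceeds that of
the residue field of `U` by at most `d`. Then `V` is log uniformizable on `X`.

Corollary (`of_rank`): this holds if `rank V + trdeg κ(V) > dim X - d`. So, by the theorem of
Cossart and Piltant, all valuations with `rank V + trdeg κ(V) ≥ dim X - 2` are log uniformizable, and
in dimension four all valuations, except possibly those of rank one with algebraic residue fields.

The proof: let `t` be lifts of a transcendence basis of `κ(U)` in the valuation ring `U / m_{U'}` of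
`κ(U')`. The models of `κ(U')` over `k` which contain `t` have the same local rings at the centres
as models over the field `k(t)`, whose dimension is at most `d`, after restriction to finitely
generated subfields; over `k(t)` the residue field is algebraic. The components are composed with
the theorem on composites of the starting library (Pool/Agent/R187/CT and Pool/Agent/TH188/QS).

helper34; built on the library of the starting files.
-/

set_option autoImplicit false

universe u

namespace Pool.Agent.Results.MP_5b7a2c_ag.RelativeDimension

open IsLocalRing Pool.Agent.W418.LU2 Pool.Agent.TH188.QS Pool.Agent.K6.H34.LU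

/-- The local ring of `Spec B` at the centre of the valuation ring `V`: the fractions of elements
of `B` whose denominators are units of `V`. -/
def centreRing {F : Type u} [Field F] (V : ValuationSubring F) (B : Subring F) : Subring F where
  carrier := {x | ∃ a ∈ B, ∃ b ∈ B, b ≠ 0 ∧ b⁻¹ ∈ V ∧ x = a * b⁻¹}
  mul_mem' := (lo V.toSubring B).mul_mem'
  one_mem' := (lo V.toSubring B).one_mem'
  add_mem' := (lo V.toSubring B).add_mem'
  zero_mem' := (lo V.toSubring B).zero_mem'
  neg_mem' := (lo V.toSubring B).neg_mem'

/-- The chart `A[I / f]` of the blowing-up of `Spec A` in the ideal `I`. -/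
def blowUpChart {F : Type u} [Field F] (A : Subring F) (I : Ideal A) (f : A) : Subring F :=
  Subring.closure ((A : Set F) ∪ {z | ∃ a ∈ I, z = (a : F) / (f : F)})

/-- `P` is a regular local ring and the zero set of `J` is a divisor with strict normal
crossings: the radical of `J` is generated by the product of some of the elements of a regular
system of parameters. -/
def RegularPair (P : Type u) [CommRing P] (J : Ideal P) : Prop :=
  ∃ (_ : IsRegularLocalRing P) (n : ℕ) (x : Fin n → P) (s : Finset (Fin n)),
    Ideal.span (Set.range x) = IsLocalRing.maximalIdeal P ∧ ringKrullDim P = n ∧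
      J.radical = Ideal.span {∏ i ∈ s, x i}

/-- The blowing-up of `X = Spec A` in `V(I)` is a log desingularization of `(X, V(D))` along the
valuation ring `V`. Here `f ∈ I` generates `I V`, the centre of the lift of the valuation lies in
the chart `Spec A[I / f]`, and the ideal `D I` defines the preimage of `V(D) ∪ V(I)`. -/
def IsLogDesingularization {F : Type u} [Field F] (V : ValuationSubring F) (A : Subring F)
    (D I : Ideal A) : Prop :=
  ∃ f ∈ I, f ≠ 0 ∧ (∀ a ∈ I, (a : F) / (f : F) ∈ V) ∧
    RegularPair (centreRing V (blowUpChart A I f))
      (Ideal.span {z | ∃ a ∈ D * I, (z : F) = (a : F)})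

/-- The valuation ring `V` is log uniformizable on `Spec A`. (The blowings-up in the ideals
`I₀ * I₁` are cofinal: the blowing-up in `I₀ * I₁` factors through the blowing-up in `I₀`.) -/
def IsLogUniformizable {F : Type u} [Field F] (V : ValuationSubring F) (A : Subring F) : Prop :=
  ∀ D I₀ : Ideal A, D ≠ ⊥ → I₀ ≠ ⊥ →
    ∃ I₁ : Ideal A, I₁ ≠ ⊥ ∧ IsLogDesingularization V A D (I₀ * I₁)

/-- Every element of the field `K` is a fraction of elements of `A`. -/
def HasFractionField {K : Type u} [Field K] (A : Subring K) : Prop :=
  ∀ z : K, ∃ a ∈ A, ∃ b ∈ A, b ≠ 0 ∧ z = a * b⁻¹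

/-- There is no valuation ring strictly between `U` and `U' > U`. -/
def IsAdjacent {K : Type u} [Field K] (U U' : ValuationSubring K) : Prop :=
  U < U' ∧ ∀ U'' : ValuationSubring K, U ≤ U'' → U'' ≤ U' → U'' = U ∨ U'' = U'

/-- Log uniformization in dimension at most `d` for the valuations of rank one with algebraic
residue fields: let `F` be a field of transcendence degree at most `d` over a field `k`, let `V` be
a valuation ring of `F` of rank one (there is no valuation ring strictly between `V` and `F ≠ V`)
such that the residues of all `z ∈ V` are algebraic over `k` (some nonzero polynomial `P` over `k`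
takes a value in the maximal ideal of `V` at `z`); then `V` is log uniformizable on `Spec A` for all
finitely generated `k`-algebras `A ⊆ V` with the fraction field `F`. -/
def LogUniformizationInDimension (d : ℕ) : Prop :=
  ∀ (k F : Type u) [Field k] [Field F] [Algebra k F] (V : ValuationSubring F)
    (A : Subalgebra k F), A.FG → HasFractionField A.toSubring → A.toSubring ≤ V.toSubring →
    Algebra.trdeg k F ≤ d → IsAdjacent V ⊤ →
    (∀ z ∈ V, ∃ P : Polynomial k, P ≠ 0 ∧ V.valuation (Polynomial.aeval z P) < 1) →
    IsLogUniformizable V A.toSubring

/-- The transcendence degree over `k` of the residue field of the valuation ring `V ⊇ k`. -/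
noncomputable def residualDimension {k K : Type u} [Field k] [Field K] [Algebra k K]
    (V : ValuationSubring K) (h : ∀ c : k, algebraMap k K c ∈ V) : Cardinal.{u} :=
  @Algebra.trdeg k (ResidueField V) _ _
    ((residue V).comp ((algebraMap k K).codRestrict V.toSubring h)).toAlgebra

lemma lud {d : ℕ} (hd : LogUniformizationInDimension.{u} d) : LUD.{u} d := by
  intro k F _ _ _ V A hA hfr hAV htr hV hV1 halg
  refine hd k F V A hA hfr hAV htr ⟨lt_top_iff_ne_top.2 hV, fun U h1 _ => hV1 U h1⟩ halg

lemma trdeg_fin {k K : Type u} [Field k] [Field K] [Algebra k K] (A : Subalgebra k K) (hA : A.FG)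
    (hfr : HasFractionField A.toSubring) : Algebra.trdeg k K < Cardinal.aleph0 := by
  have hft : Algebra.FiniteType k A := (Subalgebra.fg_iff_finiteType A).1 hA
  have hfrac : IsFractionRing A K := by
    refine IsFractionRing.of_field _ _ fun x => ?_
    obtain ⟨a, ha, b, hb, hb0, h1⟩ := hfr x
    exact ⟨⟨a, ha⟩, ⟨b, hb⟩, h1.trans (div_eq_mul_inv _ _).symm⟩
  have halg : Algebra.IsAlgebraic A K := IsLocalization.isAlgebraic K (nonZeroDivisors A)
  have h1 := trdeg_add_eq k A (A := K)
  rw [trdeg_eq_zero (R := A) (A := K), add_zero] at h1
  rw [← h1]
  exact trdeg_lt_aleph0_of_finiteType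

lemma logUnif_of_good {k K : Type u} [Field k] [Field K] [Algebra k K] {V : ValuationSubring K}
    (h : Pool.Agent.R187.CT.Good (algebraMap k K) V) (A : Subalgebra k K) (hA : A.FG)
    (hfr : HasFractionField A.toSubring) (hAV : A.toSubring ≤ V.toSubring) :
    IsLogUniformizable V A.toSubring := by
  obtain ⟨T, hT⟩ := hA
  have h1 : Pool.Agent.R187.CT.rg (algebraMap k K) (T : Set K) = A.toSubring := by
    rw [← hT, Algebra.adjoin_eq_ring_closure]
    rfl
  refine h.logUnif (hj_field k) (T := (T : Set K)) T.finite_toSet hAV (by rw [h1]) ?_ hfr
  intro b hb
  rw [h1]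
  exact ⟨b, hb, 1, Subring.one_mem _, one_ne_zero, by rw [inv_one]; exact Subring.one_mem _, by
    rw [inv_one, mul_one]⟩

/-- Let `d` be a number such that the valuations of rank one with algebraic residue fields are log
uniformizable on all affine varieties of dimension at most `d` over all fields (`d = 3`, by Cossart
and Piltant). Let `k` be a field, `A` a finitely generated `k`-algebra which is a domain with the
fraction field `K`, and `V` a valuation ring of `K` which contains `A`. Suppose that for all
valuation rings `U` and `U'` of `K` with `V ≤ U < U'` and no valuation ring strictly between `U` and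
`U'` the transcendence degree over `k` of the residue field of `U'` is at most that of the residue
field of `U` plus `d`. Then `V` is log uniformizable on `Spec A`. -/
theorem result (d : ℕ) (hd : LogUniformizationInDimension.{u} d) {k K : Type u} [Field k]
    [Field K] [Algebra k K] (A : Subalgebra k K) (hA : A.FG) (hfr : HasFractionField A.toSubring)
    (V : ValuationSubring K) (hAV : ∀ a ∈ A, a ∈ V)
    (hk : ∀ U : ValuationSubring K, V ≤ U → ∀ c : k, algebraMap k K c ∈ U)
    (hdim : ∀ (U U' : ValuationSubring K) (hU : V ≤ U) (hU' : V ≤ U'), IsAdjacent U U' →
      residualDimension U' (hk U' hU') ≤ residualDimension U (hk U hU) + d) :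
    IsLogUniformizable V A.toSubring :=
  logUnif_of_good (good_components (lud hd) (trdeg_fin A hA hfr) V hk
    fun U U' hU hU' h => hdim U U' hU hU' h) A hA hfr hAV

/-- In the situation of the theorem let the dimension `n` of `A` be less than the sum of the rank of
`V`, of the transcendence degree over `k` of the residue field of `V`, and of `d`. Then `V` is log
uniformizable on `Spec A`. -/
theorem of_rank (d : ℕ) (hd : LogUniformizationInDimension.{u} d) {k K : Type u} [Field k]
    [Field K] [Algebra k K] (A : Subalgebra k K) (hA : A.FG) (hfr : HasFractionField A.toSubring)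
    (V : ValuationSubring K) (hAV : ∀ a ∈ A, a ∈ V) (hk : ∀ c : k, algebraMap k K c ∈ V)
    (n r s : ℕ) (hn : Algebra.trdeg k K = n) (hr : (r : WithBot ℕ∞) ≤ ringKrullDim V)
    (hs : (s : Cardinal.{u}) ≤ residualDimension V hk) (h : n < r + s + d) :
    IsLogUniformizable V A.toSubring := by
  obtain ⟨q, r', hr', h0, hq, hVq, hlt⟩ := exists_chain V r hr
  have hk' : ∀ i (c : k), algebraMap k K c ∈ q i := fun i c => hVq i (hk c)
  have h1 : (s : Cardinal.{u}) ≤ resTr (q r') (hk' r') := by
    have h2 : ∀ (U : ValuationSubring K) (hU : ∀ c : k, algebraMap k K c ∈ U), U = V →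
        (s : Cardinal.{u}) ≤ resTr U hU := by
      rintro U hU rfl
      exact hs
    exact h2 _ _ hq
  have h2 := good_strict (lud hd) hn q h0 hk' r' s hlt h1 (by omega)
  rw [hq] at h2
  exact logUnif_of_good h2 A hA hfr hAV

end Pool.Agent.Results.MP_5b7a2c_ag.RelativeDimension
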